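import Pool.Agent.W761.CP.Defs

/-! Project CP: the sum over the levels. -/

set_option autoImplicit false

open scoped ENNReal

noncomputable section

namespace Pool.Agent.W45.CP

open Pool.Agent.W761.CP

/-- geometric sums -/
theorem geo {q A w : ℝ} (hq0 : 0 < q) (hq1 : q < 1) (hw : 0 ≤ w) (hA : 0 ≤ A)
    (T : Finset ℕ) (hT : ∀ k ∈ T, A * q ^ k ≤ w) : (1 - q) * ∑ k ∈ T, A * q ^ k ≤ w := by
  rcases T.eq_empty_or_nonempty with h | h
  · rw [h, Finset.sum_empty, mul_zero]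
    exact hw
  · have hk0 := T.min'_mem h
    have hle : ∀ k ∈ T, T.min' h ≤ k := fun k hk => T.min'_le k hk
    generalize T.min' h = k0 at *
    have h1 : ∑ k ∈ T, q ^ k = q ^ k0 * ∑ j ∈ T.image (fun k => k - k0), q ^ j := by
      rw [Finset.sum_image, Finset.mul_sum]
      · refine Finset.sum_congr rfl fun k hk => ?_
        rw [← pow_add]
        congr 1
        have := hle k hk
        omega
      · intro k hk k' hk' he
        have h2 := hle k hk
        have h3 := hle k' hk'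
        simp only at he
        omega
    have h4 : ∑ j ∈ T.image (fun k => k - k0), q ^ j ≤ (1 - q)⁻¹ := by
      rw [← tsum_geometric_of_lt_one hq0.le hq1]
      exact (summable_geometric_of_lt_one hq0.le hq1).sum_le_tsum _ fun _ _ => by positivity
    have h5 : 0 < 1 - q := by linarith
    calc (1 - q) * ∑ k ∈ T, A * q ^ k = (1 - q) * (A * (q ^ k0 *
          ∑ j ∈ T.image (fun k => k - k0), q ^ j)) := by rw [← h1, ← Finset.mul_sum]
      _ = (A * q ^ k0) * ((1 - q) * ∑ j ∈ T.image (fun k => k - k0), q ^ j) := by ring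
      _ ≤ (A * q ^ k0) * 1 := by
          apply mul_le_mul_of_nonneg_left _ (by positivity)
          calc (1 - q) * ∑ j ∈ T.image (fun k => k - k0), q ^ j ≤ (1 - q) * (1 - q)⁻¹ :=
                mul_le_mul_of_nonneg_left h4 h5.le
            _ = 1 := mul_inv_cancel₀ h5.ne'
      _ ≤ w := by
          rw [mul_one]
          exact hT k0 hk0

theorem le_dist (E : ℂ) (hE : 0 ≤ E.im) :
    E.im ≤ Metric.infDist E {z : ℂ | 0 ≤ z.re ∧ z.im = 0} := by
  rw [Metric.le_infDist ⟨0, by simp⟩]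
  rintro z ⟨-, hz⟩
  rw [Complex.dist_eq]
  have h := Complex.abs_im_le_norm (E - z)
  rw [Complex.sub_im, hz, sub_zero, abs_of_nonneg hE] at h
  exact h

/-- the lower bound for a single eigenvalue -/
theorem term_lower {γ σ s : ℝ} (hγ : 0 < γ) (hσ : 0 ≤ σ) (hσs : σ ≤ s) (E : ℂ)
    (h1 : 1 / 2 ≤ E.im) :
    (1 / 2 : ℝ) ^ (γ + σ) * (2 * ‖E‖) ^ (-s) ≤
      ‖E‖ ^ (-σ) * Metric.infDist E {z : ℂ | 0 ≤ z.re ∧ z.im = 0} ^ (γ + σ) := by
  have h2 : 1 / 2 ≤ ‖E‖ := h1.trans ((le_abs_self _).trans (Complex.abs_im_le_norm E))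
  have h3 : 1 / 2 ≤ Metric.infDist E {z : ℂ | 0 ≤ z.re ∧ z.im = 0} :=
    h1.trans (le_dist E (by linarith))
  have h4 : (1 / 2 : ℝ) ^ (γ + σ) ≤ Metric.infDist E {z : ℂ | 0 ≤ z.re ∧ z.im = 0} ^ (γ + σ) :=
    Real.rpow_le_rpow (by norm_num) h3 (by linarith)
  have h5 : (2 * ‖E‖) ^ (-s) ≤ ‖E‖ ^ (-σ) := by
    calc (2 * ‖E‖) ^ (-s) ≤ (2 * ‖E‖) ^ (-σ) :=
          Real.rpow_le_rpow_of_exponent_le (by linarith) (by linarith)
      _ = 2 ^ (-σ) * ‖E‖ ^ (-σ) := Real.mul_rpow (by norm_num) (norm_nonneg E)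
      _ ≤ 1 * ‖E‖ ^ (-σ) := by
          apply mul_le_mul_of_nonneg_right _ (Real.rpow_nonneg (norm_nonneg E) _)
          exact Real.rpow_le_one_of_one_le_of_nonpos (by norm_num) (by linarith)
      _ = ‖E‖ ^ (-σ) := one_mul _
  rw [mul_comm]
  exact mul_le_mul h5 h4 (Real.rpow_nonneg (by norm_num) _) (Real.rpow_nonneg (norm_nonneg E) _)

theorem sum : S_SUM := by
  intro d γ σ c M₀ hd hγ hσ hσd hc hM
  set s : ℝ := (d : ℝ) / 2 with hs
  have hs0 : 0 < s := by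
    have : (1 : ℝ) ≤ d := by exact_mod_cast hd
    rw [hs]
    linarith
  set q : ℝ := (4 : ℝ) ^ (-s) with hq
  have hq0 : 0 < q := Real.rpow_pos_of_pos (by norm_num) _
  have hq1 : q < 1 := Real.rpow_lt_one_of_one_lt_of_neg (by norm_num) (by linarith)
  set A : ℝ := (4 * M₀) ^ (-s) with hA
  have hA0 : 0 < A := Real.rpow_pos_of_pos (by linarith) _
  have hp0 : (0 : ℝ) < (1 / 2 : ℝ) ^ (γ + σ) := Real.rpow_pos_of_pos (by norm_num) _
  set p : ℝ := (1 / 2 : ℝ) ^ (γ + σ) with hp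
  refine ⟨p * (1 - q) * c * q, mul_pos (mul_pos (mul_pos hp0 (by linarith)) hc) hq0, ?_⟩
  intro K h mult hh hS
  have hak : ∀ k : ℕ, (4 * (4 ^ k * M₀)) ^ (-s) = A * q ^ k := by
    intro k
    have h1 : (4 * (4 ^ k * M₀) : ℝ) = (4 * M₀) * 4 ^ k := by ring
    rw [h1, Real.mul_rpow (by linarith) (by positivity), hA, hq, ← Real.rpow_natCast 4 k,
      ← Real.rpow_mul (by norm_num), mul_comm (k : ℝ), Real.rpow_mul (by norm_num),
      Real.rpow_natCast]
  have hak2 : ∀ k : ℕ, A * q ^ k * (4 ^ k * M₀) ^ s = q := by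
    intro k
    have h0 : (0 : ℝ) < 4 ^ k * M₀ := by positivity
    rw [← hak k, Real.mul_rpow (by norm_num) h0.le, mul_assoc, ← Real.rpow_add h0,
      neg_add_cancel, Real.rpow_zero, mul_one]
  have hS' : ∀ k : ℕ, ∃ S : Finset ℂ, k ∈ Finset.Icc 1 K →
      (∀ E ∈ S, 1 / 2 ≤ E.im ∧ E.im ≤ 1 ∧ 0 ≤ E.re ∧ E.re ≤ 4 ^ k * M₀) ∧
      c * (4 ^ k * M₀) ^ s * h ^ (-(d : ℝ)) ≤ ∑ E ∈ S, (mult E : ℝ) := by
    intro k
    by_cases hk : k ∈ Finset.Icc 1 K
    · obtain ⟨S, h1, h2⟩ := hS k hk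
      exact ⟨S, fun _ => ⟨h1, h2⟩⟩
    · exact ⟨∅, fun h => absurd h hk⟩
  choose S hS1 using hS'
  classical
  set U : Finset ℂ := (Finset.Icc 1 K).biUnion S with hU
  have hw : ∀ E ∈ U, (1 - q) * ∑ k ∈ (Finset.Icc 1 K).filter (fun k => E ∈ S k), A * q ^ k ≤
      (2 * ‖E‖) ^ (-s) := by
    intro E _
    refine geo hq0 hq1 (Real.rpow_nonneg (by positivity) _) hA0.le _ ?_
    intro k hk
    rw [Finset.mem_filter] at hk
    obtain ⟨h1, h2, h3, h4⟩ := (hS1 k hk.1).1 E hk.2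
    rw [← hak k]
    have h5 : 1 / 2 ≤ ‖E‖ := h1.trans ((le_abs_self _).trans (Complex.abs_im_le_norm E))
    apply Real.rpow_le_rpow_of_nonpos (by linarith) _ (by linarith)
    have h6 := Complex.norm_le_abs_re_add_abs_im E
    rw [abs_of_nonneg h3, abs_of_nonneg (by linarith : (0 : ℝ) ≤ E.im)] at h6
    have h7 : (1 : ℝ) ≤ 4 ^ k * M₀ := by
      have : (1 : ℝ) ≤ 4 ^ k := one_le_pow₀ (by norm_num)
      nlinarith
    linarith
  have hUim : ∀ E ∈ U, 1 / 2 ≤ E.im := by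
    intro E hE
    rw [hU, Finset.mem_biUnion] at hE
    obtain ⟨k, hk, hE⟩ := hE
    exact ((hS1 k hk).1 E hE).1
  have hhd : 0 < h ^ (-(d : ℝ)) := Real.rpow_pos_of_pos hh _
  -- the real inequality
  have hreal : p * (1 - q) * c * q * K * h ^ (-(d : ℝ)) ≤ ∑ E ∈ U, (mult E : ℝ) *
      (‖E‖ ^ (-σ) * Metric.infDist E {z : ℂ | 0 ≤ z.re ∧ z.im = 0} ^ (γ + σ)) := by
    calc p * (1 - q) * c * q * K * h ^ (-(d : ℝ))
        = p * (1 - q) * ∑ k ∈ Finset.Icc 1 K, c * q * h ^ (-(d : ℝ)) := by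
          rw [Finset.sum_const, Nat.card_Icc, nsmul_eq_mul, Nat.add_sub_cancel]
          ring
      _ ≤ p * (1 - q) * ∑ k ∈ Finset.Icc 1 K, A * q ^ k * ∑ E ∈ S k, (mult E : ℝ) := by
          apply mul_le_mul_of_nonneg_left _ (mul_nonneg hp0.le (by linarith))
          refine Finset.sum_le_sum fun k hk => ?_
          have h8 : A * q ^ k * (c * (4 ^ k * M₀) ^ s * h ^ (-(d : ℝ))) =
              c * (A * q ^ k * (4 ^ k * M₀) ^ s) * h ^ (-(d : ℝ)) := by ring
          calc c * q * h ^ (-(d : ℝ)) =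
                A * q ^ k * (c * (4 ^ k * M₀) ^ s * h ^ (-(d : ℝ))) := by
                rw [h8, hak2 k]
            _ ≤ _ := mul_le_mul_of_nonneg_left (hS1 k hk).2 (by positivity)
      _ = p * (1 - q) * ∑ k ∈ Finset.Icc 1 K, ∑ E ∈ U,
            if E ∈ S k then A * q ^ k * (mult E : ℝ) else 0 := by
          congr 1
          refine Finset.sum_congr rfl fun k hk => ?_
          rw [Finset.mul_sum, ← Finset.sum_filter]
          refine Finset.sum_congr ?_ fun _ _ => rfl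
          ext E
          rw [Finset.mem_filter, hU, Finset.mem_biUnion]
          exact ⟨fun h => ⟨⟨k, hk, h⟩, h⟩, fun h => h.2⟩
      _ = ∑ E ∈ U, (mult E : ℝ) * (p * ((1 - q) *
            ∑ k ∈ (Finset.Icc 1 K).filter (fun k => E ∈ S k), A * q ^ k)) := by
          rw [Finset.sum_comm, Finset.mul_sum]
          refine Finset.sum_congr rfl fun E _ => ?_
          rw [← Finset.sum_filter, ← Finset.sum_mul]
          ring
      _ ≤ _ := by
          refine Finset.sum_le_sum fun E hE => ?_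
          apply mul_le_mul_of_nonneg_left _ (Nat.cast_nonneg _)
          refine (mul_le_mul_of_nonneg_left (hw E hE) hp0.le).trans ?_
          exact term_lower hγ hσ hσd E (hUim E hE)
  calc ENNReal.ofReal (p * (1 - q) * c * q * K * h ^ (-(d : ℝ))) ≤
        ENNReal.ofReal (∑ E ∈ U, (mult E : ℝ) *
      (‖E‖ ^ (-σ) * Metric.infDist E {z : ℂ | 0 ≤ z.re ∧ z.im = 0} ^ (γ + σ))) :=
        ENNReal.ofReal_le_ofReal hreal
    _ = ∑ E ∈ U, (mult E : ℝ≥0∞) *
        ENNReal.ofReal (‖E‖ ^ (-σ) * Metric.infDist E {z : ℂ | 0 ≤ z.re ∧ z.im = 0} ^ (γ + σ)) := by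
        rw [ENNReal.ofReal_sum_of_nonneg]
        · refine Finset.sum_congr rfl fun E _ => ?_
          rw [ENNReal.ofReal_mul (Nat.cast_nonneg _), ENNReal.ofReal_natCast]
        · intro E _
          exact mul_nonneg (Nat.cast_nonneg _) (mul_nonneg (Real.rpow_nonneg (norm_nonneg E) _)
            (Real.rpow_nonneg Metric.infDist_nonneg _))
    _ ≤ _ := ENNReal.sum_le_tsum U

end Pool.Agent.W45.CP
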